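import Pool.Agent.K.MP_e9cc94_co.C0

namespace Pool.Agent.Results.MP_e9cc94_co.DihedralSections

theorem result :
    ∀ (G : Type) [Group G] [Fintype G] [DecidableEq G] (D : Finset G) (lam : ℕ),
      4 < Fintype.card G → Fintype.card G = 2 * lam →
      (∀ g : G, g ≠ 1 → ((D ×ˢ D).filter (fun p : G × G => p.1 * p.2⁻¹ = g)).card = lam) →
      ∃ u P H : ℕ, D.card = lam + u ^ 2 ∧ Fintype.card G = 4 * u * P * H ∧ 2 ≤ P ∧
        (H ^ 2 = 2 * P ^ 2 + 1 ∨ H ^ 2 + 1 = 2 * P ^ 2) ∧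
        ∀ (K : Subgroup G) (m : ℕ) (φ : K →* DihedralGroup m), Function.Surjective φ →
          Nat.Coprime m H ∨ Nat.Coprime m (2 * P) :=
  fun _ _ _ _ _ _ h4 hv h => Pool.Agent.P.MP_e9cc94_co.Dih.pell h h4 hv

end Pool.Agent.Results.MP_e9cc94_co.DihedralSections
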