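import Pool.Agent.K.MP_e9cc94_co.C3

namespace Pool.Agent.Results.MP_e9cc94_co.LargePrime

theorem result :
    ∀ (G : Type) [Group G] [Fintype G] [DecidableEq G] (D : Finset G) (lam : ℕ),
      4 < Fintype.card G → Fintype.card G = 2 * lam →
      (∀ g : G, g ≠ 1 → ((D ×ˢ D).filter (fun x : G × G => x.1 * x.2⁻¹ = g)).card = lam) →
      ∃ u : ℕ, D.card = lam + u ^ 2 ∧ ∀ p m : ℕ, p.Prime → u = p * m →
        p ≤ 200000 * m ^ 8 * Nat.card (commutator G) ^ 3 :=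
  fun _ _ _ _ _ _ h4 hv h => Pool.Agent.P.MP_e9cc94_co.Pl.pell h4 hv h

end Pool.Agent.Results.MP_e9cc94_co.LargePrime
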