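import Pool.Agent.K.MP_e9cc94_co.C15

set_option autoImplicit false

namespace Pool.Agent.Results.MP_e9cc94_co.NoOrder120

/-- Every Pell difference set of order greater than 4 has order at least 4060: there is no
(120,85,60) difference set, equivalently no (120,35,10) difference set, in any group of order 120. -/
theorem result :
    ∀ (G : Type) [Group G] [Fintype G] [DecidableEq G] (D : Finset G) (lam : ℕ),
      4 < Fintype.card G → Fintype.card G = 2 * lam →
      (∀ g : G, g ≠ 1 → ((D ×ˢ D).filter (fun p : G × G => p.1 * p.2⁻¹ = g)).card = lam) →
      4060 ≤ Fintype.card G :=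
  fun _ _ _ _ D lam h4 hv h => PellDS.main D lam h4 hv h

end Pool.Agent.Results.MP_e9cc94_co.NoOrder120
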